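import Pool.Agent.Helper3.TP.St
import Pool.Agent.Helper80.TL.M_FAM1
import Pool.Agent.Helper80.TL.M_FAM2
import Pool.Agent.Helper80.TL.M_FAR1

/-! Project TP, module BADN. -/

open Finset
open MP86d903 (Valid Lit inside mem_inside pt flip Clause Ineq clauseIneq vsF ngF)
open Helper80.SR (Exp Closed Cl Sm)
open Helper3.TL Helper3.TP

namespace Pool.Agent.Helper29.TP

theorem hBadN (hR : PRad) (hA1 : PAdj1) : PBadN := by
  intro ι V _ _ _ _ vs ng q D κ P A ρ d d₀ C H hE hκ hHC hC0 hle
  classical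
  obtain ⟨-, hRm, -, -, -⟩ := hR
  obtain ⟨t1, t2, t3, t4, t5, t6⟩ := Helper80.TL.hFam1 ι V vs ng q D κ A hE
  obtain ⟨c1, c2⟩ := Helper80.TL.hFam2 ι V vs q D κ A hE
  have hAc : Closed vs q A := hE.closed'
  obtain ⟨L, hL⟩ : ∃ L, L = rad (2 * (3 * P + 3)) + 1 := ⟨_, rfl⟩
  have hball : ball D (2 * (3 * P + 3)) = (2 * D + 1) ^ L := by rw [hL]; rfl
  unfold badN
  rw [hball]
  by_contra hcon
  rw [not_le] at hcon
  have chain : ∀ t ≤ P, ∃ Rt σt, Ext vs ng q A (3 * t) A ρ Rt σt ∧
      -C + t ≤ lv d d₀ Rt σt := by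
    intro t
    induction t with
    | zero =>
      intro _
      exact ⟨A, ρ, Ext.rfl' hAc (by simp), by simpa using hC0⟩
    | succ t ih =>
      intro ht
      obtain ⟨Rt, σt, hext, hlv⟩ := ih (by omega)
      have hARt : A ⊆ Rt := hext.1
      have hdisjRt : Disjoint (Rt \ A) A := sdiff_disjoint
      obtain ⟨n1, n2, n3, n4⟩ := Helper80.TL.hFar1 ι V vs q D κ A (Rt \ A) L hE hdisjRt
      obtain ⟨i, hiBad, hfar⟩ : ∃ i ∈ bad vs ng q A ρ d 0,
          Disjoint (Cl vs q (insert i A) \ A) (near vs A L (Rt \ A)) := by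
        by_contra hno
        push Not at hno
        have hsub : bad vs ng q A ρ d 0 ⊆ (near vs A L (Rt \ A)).biUnion
            (fun j => Cl vs q (insert j A) \ A) := by
          intro i hi
          have h1 := hno i hi
          rw [Finset.not_disjoint_iff] at h1
          obtain ⟨j, hj1, hj2⟩ := h1
          have h2 := c1 A i j (subset_refl A) hAc (by simp) (mem_sdiff.mp hj1).1
            (mem_sdiff.mp hj1).2
          refine mem_biUnion.mpr ⟨j, hj2, mem_sdiff.mpr ⟨?_, ?_⟩⟩
          · rw [h2]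
            exact mem_cl_insert i A
          · exact (mem_filter.mp hi).2.1
        have h3 := (card_le_card hsub).trans (card_biUnion_le_card_mul _ _ 3
          (fun j _ => card_class_le hClo1 hE j (by omega)))
        have h4 : (Rt \ A).card * (2 * D + 1) ^ L ≤ 3 * P * (2 * D + 1) ^ L := by
          refine Nat.mul_le_mul_right _ ?_
          have := hext.2.2.1
          omega
        omega
      obtain ⟨-, hiA, σ₁, hσ₁, hne⟩ := mem_filter.mp hiBad
      obtain ⟨W, hW⟩ : ∃ W, W = Cl vs q (insert i A) \ A := ⟨_, rfl⟩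
      have hAW : A ∪ W = Cl vs q (insert i A) := by rw [hW]; exact union_class i
      have hW3 : W.card ≤ 3 := by rw [hW]; exact card_class_le hClo1 hE i (by omega)
      rw [← hW] at hne hfar
      have hWA : Disjoint W A := by rw [hW]; exact sdiff_disjoint
      have hnear : Disjoint W (near vs A (rad (2 * (3 * t + 3)) + 1) (Rt \ A)) := by
        refine disjoint_of_subset_right ?_ hfar
        have hm := (Helper80.TL.hFar1 ι V vs q D κ A (Rt \ A) (rad (2 * (3 * t + 3)) + 1) hE
          sdiff_disjoint).2.2.2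
        refine hm (Rt \ A) L (subset_refl _) ?_
        rw [hL]
        have := hRm (2 * (3 * t + 3)) (2 * (3 * P + 3)) (by omega)
        omega
      obtain ⟨σ₂, hσ₂, hval⟩ := hA1 ι V vs ng q D κ (3 * t) A Rt W σt σ₁ hE hARt
        hext.2.1 hext.2.2.1 hWA hW3 (by rw [hAW]; exact Helper80.SR.closed_Cl q _)
        (by rw [hAW]; exact hσ₁.2.2.2.2) hnear (decide (0 < ∑ j ∈ W, d j * sg (σ₁ j)))
      refine ⟨Rt ∪ W, σ₂, ?_, ?_⟩
      · have := t1 _ _ _ _ _ _ _ _ hext hσ₂
        exact this.mono (by omega)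
      · rw [hval d d₀]
        push_cast at hne ⊢
        rw [zero_dvd_iff] at hne
        generalize (∑ j ∈ W, d j * sg (σ₁ j)) = S at hne ⊢
        by_cases hpos : 0 < S
        · have h1 : sg (decide (0 < S)) = 1 := by simp [hpos, sg]
          rw [h1]
          omega
        · have h1 : sg (decide (0 < S)) = -1 := by simp [hpos, sg]
          rw [h1]
          omega
  obtain ⟨Rt, σt, hext, hlv⟩ := chain P le_rfl
  have h1 := hle Rt σt hext
  omega

end Pool.Agent.Helper29.TP
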