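import Pool.Agent.Helper49.TP.StF

/-!
Project TP, module FMA: a largest t by compactness.
-/

set_option autoImplicit false

namespace Pool.Agent.Helper29.TP

open Finset Pool.Agent.Helper49.TP Pool.Agent.Helper93.IA

theorem hFMA : StFMA := by
  intro n Λ FA FB FC hΛ
  obtain ⟨K, hK⟩ : ∃ K : Set (ℝ × (Fin n → Fin n → Fin n → ℝ)),
      K = {p | 0 ≤ p.1 ∧ p.1 ≤ 1 ∧ Sol Λ p.1 FA FB FC p.2} := ⟨_, rfl⟩
  have hap : ∀ r c s, Continuous fun p : ℝ × (Fin n → Fin n → Fin n → ℝ) => p.2 r c s := by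
    intro r c s
    have h1 : Continuous fun p : ℝ × (Fin n → Fin n → Fin n → ℝ) => p.2 r :=
      (continuous_apply r).comp continuous_snd
    have h2 : Continuous fun p : ℝ × (Fin n → Fin n → Fin n → ℝ) => p.2 r c :=
      (continuous_apply c).comp h1
    exact (continuous_apply s).comp h2
  have hrhs : ∀ v : ℝ, Continuous fun p : ℝ × (Fin n → Fin n → Fin n → ℝ) =>
      (n : ℝ) * (1 + p.1 * v) := fun v =>
    continuous_const.mul (continuous_const.add (continuous_fst.mul continuous_const))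
  have hcl : IsClosed K := by
    have hEq : K = {p | 0 ≤ p.1} ∩ ({p | p.1 ≤ 1} ∩
        ((⋂ r, ⋂ c, ⋂ s, ({p | 0 ≤ p.2 r c s} ∩ {p | p.2 r c s ≤ Λ})) ∩
        ((⋂ r, ⋂ c, {p | ∑ s, p.2 r c s = n * (1 + p.1 * (FA r c - 1))}) ∩
        ((⋂ c, ⋂ s, {p | ∑ r, p.2 r c s = n * (1 + p.1 * (FB c s - 1))}) ∩
        (⋂ s, ⋂ r, {p | ∑ c, p.2 r c s = n * (1 + p.1 * (FC s r - 1))}))))) := by
      rw [hK]
      ext p
      simp only [Sol, Set.mem_ofPred_eq, Set.mem_inter_iff, Set.mem_iInter]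
    rw [hEq]
    refine (isClosed_le continuous_const continuous_fst).inter
      ((isClosed_le continuous_fst continuous_const).inter (IsClosed.inter ?_
        (IsClosed.inter ?_ (IsClosed.inter ?_ ?_))))
    · exact isClosed_iInter fun r => isClosed_iInter fun c => isClosed_iInter fun s =>
        (isClosed_le continuous_const (hap r c s)).inter
          (isClosed_le (hap r c s) continuous_const)
    · exact isClosed_iInter fun r => isClosed_iInter fun c =>
        isClosed_eq (continuous_finset_sum _ fun s _ => hap r c s) (hrhs _)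
    · exact isClosed_iInter fun c => isClosed_iInter fun s =>
        isClosed_eq (continuous_finset_sum _ fun r _ => hap r c s) (hrhs _)
    · exact isClosed_iInter fun s => isClosed_iInter fun r =>
        isClosed_eq (continuous_finset_sum _ fun c _ => hap r c s) (hrhs _)
  have hsub : K ⊆ Set.Icc ((0 : ℝ), (fun _ _ _ => (0 : ℝ) : Fin n → Fin n → Fin n → ℝ))
      ((1 : ℝ), (fun _ _ _ => Λ : Fin n → Fin n → Fin n → ℝ)) := by
    intro p hp
    rw [hK] at hp
    obtain ⟨h0, h1, hs, _⟩ := hp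
    refine ⟨⟨h0, fun r c s => (hs r c s).1⟩, ⟨h1, fun r c s => (hs r c s).2⟩⟩
  have hcomp : IsCompact K := isCompact_Icc.of_isClosed_subset hcl hsub
  have hne : K.Nonempty := by
    refine ⟨((0 : ℝ), fun _ _ _ => (1 : ℝ)), ?_⟩
    rw [hK]
    refine ⟨le_rfl, zero_le_one, fun _ _ _ => ⟨zero_le_one, hΛ⟩, ?_, ?_, ?_⟩ <;>
    · intro _ _
      simp
  obtain ⟨p, hpK, hmax⟩ := hcomp.exists_isMaxOn hne continuous_fst.continuousOn
  have hpK' := hpK
  rw [hK] at hpK'
  refine ⟨p.1, p.2, hpK'.1, hpK'.2.1, hpK'.2.2, ?_⟩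
  intro t' x' ht1 hsol ht0
  have hm : (t', x') ∈ K := by
    rw [hK]
    exact ⟨ht0, ht1, hsol⟩
  exact hmax hm

end Pool.Agent.Helper29.TP
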