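import Pool.Agent.Helper49.TP.StM

/-!
Project TP, module SMX: what is missing outside the reservoir.
-/

set_option autoImplicit false

namespace Pool.Agent.Helper29.TP

open Finset Pool.Agent.Helper49.TP Pool.Agent.Helper93.IA Pool.Agent.Helper38.IA

theorem hSMX : StSMX := by
  intro α β _ _ _ _ g ξ ρ t n m A0 A QA U1 U2 _ hA hU1 hU2 hm hQ ht
  have hsub : A0 \ ((A \ ins A U1 U2) \ QA) ⊆ ((A0 \ A) ∪ ins A U1 U2) ∪ QA := by
    intro e he
    simp only [mem_sdiff, mem_union] at he ⊢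
    by_cases h1 : e ∈ A
    · by_cases h2 : e ∈ ins A U1 U2
      · exact Or.inl (Or.inr h2)
      · by_cases h3 : e ∈ QA
        · exact Or.inr h3
        · exact absurd ⟨⟨h1, h2⟩, h3⟩ he.2
    · exact Or.inl (Or.inl ⟨he.1, h1⟩)
  have hn : (0 : ℝ) ≤ n := Nat.cast_nonneg n
  have htn : g * n + ξ * n + 2 * ρ * n ≤ t * n := by
    have := mul_le_mul_of_nonneg_right ht hn
    linarith
  have hi1 : ∀ a, d1 (ins A U1 U2) a ≤ m := by
    intro a
    rw [Helper93.IA.d1_eq, ← hU2]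
    refine card_le_card ?_
    intro b hb
    simp only [mem_filter, mem_univ, true_and] at hb
    exact (mem_ins.1 hb).2.2
  have hi2 : ∀ b, d2 (ins A U1 U2) b ≤ m := by
    intro b
    rw [Helper93.IA.d2_eq, ← hU1]
    refine card_le_card ?_
    intro a ha
    simp only [mem_filter, mem_univ, true_and] at ha
    exact (mem_ins.1 ha).2.1
  refine ⟨fun a => ?_, fun b => ?_⟩
  · have h1 := d1_mono hsub a
    have h2 := d1_union_le ((A0 \ A) ∪ ins A U1 U2) QA a
    have h3 := d1_union_le (A0 \ A) (ins A U1 U2) a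
    have h4 := hi1 a
    have h5 : d1 (A0 \ ((A \ ins A U1 U2) \ QA)) a ≤ d1 (A0 \ A) a + m + d1 QA a := by omega
    have h6 : (d1 (A0 \ ((A \ ins A U1 U2) \ QA)) a : ℝ) ≤ d1 (A0 \ A) a + m + d1 QA a := by
      exact_mod_cast h5
    linarith [hA.1 a, hQ.1 a]
  · have h1 := d2_mono hsub b
    have h2 := d2_union_le ((A0 \ A) ∪ ins A U1 U2) QA b
    have h3 := d2_union_le (A0 \ A) (ins A U1 U2) b
    have h4 := hi2 b
    have h5 : d2 (A0 \ ((A \ ins A U1 U2) \ QA)) b ≤ d2 (A0 \ A) b + m + d2 QA b := by omega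
    have h6 : (d2 (A0 \ ((A \ ins A U1 U2) \ QA)) b : ℝ) ≤ d2 (A0 \ A) b + m + d2 QA b := by
      exact_mod_cast h5
    linarith [hA.2 b, hQ.2 b]

end Pool.Agent.Helper29.TP
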